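import Pool.Agent.Lib.MP_ba1c0b_an3.Z5

/-!
# The exponent `q(n,1)` in odd dimensions is `n/2 + O(1)`

For every odd `n ≥ 3` the infimum `q(n,1)` of the exponents `q ∈ (1,n]` such that every weakly
1-quasiregular map of class `W^{1,q}_loc` on an open subset of `ℝ^n` is in `W^{1,n}_loc` satisfies
`n/2 ≤ q(n,1) ≤ n/2 + min (3 √n) 140`.  With the definitions below unfolded, the set whose infimum is taken is
the set of the frozen statement S05931.
-/

set_option autoImplicit false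

open MeasureTheory

namespace Pool.Agent.Results.MP_ba1c0b_an.ConstBound

/-- The space `ℝ^n` with the Euclidean norm. -/
abbrev E (n : ℕ) : Type := EuclideanSpace ℝ (Fin n)

/-- `f` and `Df` are in `L^p` on every compact subset of `Ω` (`|Df|` is the operator norm). -/
def LocLp (n : ℕ) (p : ENNReal) (Ω : Set (E n)) (f : E n → E n) (Df : E n → (E n →L[ℝ] E n)) :
    Prop :=
  ∀ C : Set (E n), IsCompact C → C ⊆ Ω →
    MemLp f p (volume.restrict C) ∧ MemLp Df p (volume.restrict C)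

/-- `Df` is the weak differential of `f` in `Ω`: integration by parts against every smooth function
with compact support in `Ω`. -/
def WeakDiff (n : ℕ) (Ω : Set (E n)) (f : E n → E n) (Df : E n → (E n →L[ℝ] E n)) : Prop :=
  ∀ φ : E n → ℝ, ContDiff ℝ ((⊤ : ℕ∞) : WithTop ℕ∞) φ → HasCompactSupport φ → tsupport φ ⊆ Ω →
    ∀ v : E n, ∫ x, (fderiv ℝ φ x v) • f x = -∫ x, φ x • Df x v

/-- `|Df|^n ≤ det Df` almost everywhere in `Ω`. -/
def QR1 (n : ℕ) (Ω : Set (E n)) (Df : E n → (E n →L[ℝ] E n)) : Prop :=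
  ∀ᵐ x ∂(volume.restrict Ω), ‖Df x‖ ^ n ≤ LinearMap.det (Df x : E n →ₗ[ℝ] E n)

/-- `q(n,1)`: the infimum of the `q ∈ (1,n]` such that every weakly 1-quasiregular map of class
`W^{1,q}_loc` on an open subset of `ℝ^n` is of class `W^{1,n}_loc`. -/
noncomputable def qmin (n : ℕ) : ℝ :=
  sInf {q : ℝ | 1 < q ∧ q ≤ (n : ℝ) ∧
    ∀ (Ω : Set (E n)) (f : E n → E n) (Df : E n → (E n →L[ℝ] E n)), IsOpen Ω →
      LocLp n (ENNReal.ofReal q) Ω f Df → WeakDiff n Ω f Df → QR1 n Ω Df →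
      LocLp n (n : ENNReal) Ω f Df}

/-- For every odd `n ≥ 3`: `n/2 ≤ q(n,1) ≤ n/2 + min (3 √n) 140`. -/
theorem result (n : ℕ) (hodd : Odd n) (hn : 3 ≤ n) :
    (n : ℝ) / 2 ≤ qmin n ∧ qmin n ≤ (n : ℝ) / 2 + min (3 * Real.sqrt n) 140 :=
  ⟨Pool.Agent.Lib.QR.half_le_qexp4 n hn, Pool.Agent.Lib.QR.rate_const n hodd hn⟩

end Pool.Agent.Results.MP_ba1c0b_an.ConstBound
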